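import Pool.Agent.MP_6b3e96_gt.H31.Tab
import Pool.Agent.MP_6b3e96_gt.H20.Local

/-!
The certificate for the local matrix.
-/

open scoped ContDiff
open Set Filter MeasureTheory Complex

noncomputable section

namespace Pool.Agent.MP_6b3e96_gt.H31

open Pool.Agent.MP_6b3e96_gt.H77 Pool.Agent.MP_6b3e96_gt.H20

/-- Triangular coordinates on the two halves of the square. -/
theorem duffy {h G₁ G₂ : ℂ → ℝ} (hh : IntegrableOn h Sq) (c1 : Continuous G₁) (c2 : Continuous G₂)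
    (e : ∀ s ∈ Ioc (0 : ℝ) 1, ∀ t ∈ Icc (0 : ℝ) 1,
      s * h ⟨s, s * t⟩ = G₁ ⟨s, t⟩ ∧ s * h ⟨s * t, s⟩ = G₂ ⟨s, t⟩) :
    ∫ w in Sq, h w = ∫ w in Sq, (G₁ w + G₂ w) := by
  have hA : MeasurableSet {w : ℂ | w.im ≤ w.re} :=
    (isClosed_le continuous_im continuous_re).measurableSet
  have i1 := c1.continuousOn.integrableOn_compact (μ := volume) Sq_cpt
  have i2 := c2.continuousOn.integrableOn_compact (μ := volume) Sq_cpt
  have key : ∀ (k g : ℝ → ℝ) (s : ℝ), s ∈ Ioc (0 : ℝ) 1 → (∀ t ∈ Icc (0 : ℝ) 1, s * k (s * t) = g t) →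
      ∫ t in (0 : ℝ)..1, {x | x ≤ s}.indicator k t = ∫ t in (0 : ℝ)..1, g t := by
    intro k g s hs hg
    have h1 := intervalIntegral.smul_integral_comp_mul_left (a := 0) (b := 1) k s
    rw [mul_zero, mul_one] at h1
    rw [intervalIntegral.integral_indicator ⟨hs.1.le, hs.2⟩, ← h1, smul_eq_mul,
      ← intervalIntegral.integral_const_mul]
    exact intervalIntegral.integral_congr fun t ht => hg t (by rwa [uIcc_of_le zero_le_one] at ht)
  rw [integral_add i1 i2, (fub i1).1, (fub i2).1]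
  conv_lhs => rw [← indicator_self_add_compl {w : ℂ | w.im ≤ w.re} h]
  simp only [Pi.add_apply]
  rw [integral_add (hh.indicator hA) (hh.indicator hA.compl), (fub (hh.indicator hA)).1,
    (fub (hh.indicator hA.compl)).2.1]
  congr 1
  · refine setIntegral_congr_fun measurableSet_Ioc fun s hs => ?_
    exact key (fun t => h ⟨s, t⟩) _ s hs fun t ht => (e s hs t ht).1
  · refine setIntegral_congr_fun measurableSet_Ioc fun s hs => ?_
    refine Eq.trans (intervalIntegral.integral_congr_ae ?_)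
      (key (fun t => h ⟨t, s⟩) _ s hs fun t ht => (e s hs t ht).2)
    filter_upwards [(countable_singleton s).ae_notMem volume] with t ht _
    have ht' : t ≠ s := ht
    by_cases h1 : t ≤ s
    · rw [indicator_of_mem (show (⟨t, s⟩ : ℂ) ∈ {w : ℂ | w.im ≤ w.re}ᶜ from
        fun h2 => ht' (le_antisymm h1 h2)), indicator_of_mem (show t ∈ {x | x ≤ s} from h1)]
    · rw [indicator_of_notMem (show (⟨t, s⟩ : ℂ) ∉ {w : ℂ | w.im ≤ w.re}ᶜ from
        fun h2 => h2 (le_of_not_ge h1)), indicator_of_notMem (show t ∉ {x | x ≤ s} from h1)]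

/-- The test fields. -/
def fl (T : List (List (List ℤ))) (a : Fin 4 × Fin 3) (w : ℂ) : ℝ := ev2 14 (tb T a) w.re w.im

theorem fl_sm (T : List (List (List ℤ))) (a : Fin 4 × Fin 3) : ContDiff ℝ 1 (fl T a) :=
  contDiff_ev2 _ _ reCLM.contDiff imCLM.contDiff

theorem sum_sm (T : List (List (List ℤ))) (y : Fin 4 × Fin 3 → ℝ) :
    ContDiff ℝ 1 fun z => ∑ a, y a * fl T a z :=
  ContDiff.sum fun a _ => contDiff_const.mul (fl_sm T a)

theorem d1_sum (T : List (List (List ℤ))) (y : Fin 4 × Fin 3 → ℝ) {w : ℂ} (hw : w ∈ Sq)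
    (h0 : w ≠ 0) : d1 (fun z => ∑ a, y a * fl T a z) w =
      ∑ a, y a * ev2 14 (dx (tb T a)) w.re w.im :=
  (D1.of_diff (fun w _ _ => (sum_sm T y).differentiable one_ne_zero w) w hw h0).unique
    (HasDerivAt.fun_sum fun a _ => (hasDerivAt_dx 14 (tb T a) w.re w.im).const_mul (y a))

theorem d2_sum (T : List (List (List ℤ))) (y : Fin 4 × Fin 3 → ℝ) {w : ℂ} (hw : w ∈ Sq)
    (h0 : w ≠ 0) : d2 (fun z => ∑ a, y a * fl T a z) w =
      ∑ a, y a * ev2 14 (dy (tb T a)) w.re w.im :=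
  (D2.of_diff (fun w _ _ => (sum_sm T y).differentiable one_ne_zero w) w hw h0).unique
    (HasDerivAt.fun_sum fun a _ => (hasDerivAt_dy 14 (tb T a) w.re w.im).const_mul (y a))

theorem Bf_sum {ι : Type} [Fintype ι] (y f g h u v e : ι → ℝ) (m p : ℝ) :
    ∑ a, ∑ b, y a * y b * Bf m p (f a) (g a) (h a) (u a) (v a) (e a)
      (f b) (g b) (h b) (u b) (v b) (e b) =
    21 * (m * ((∑ a, y a * g a) ^ 2 + (∑ a, y a * h a) ^ 2) - p * (∑ a, y a * f a) ^ 2) -
      60 * (m * ((∑ a, y a * g a - ∑ a, y a * u a) ^ 2 + (∑ a, y a * h a - ∑ a, y a * v a) ^ 2)) -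
      175 * (m * ∑ a, y a * e a + p * ∑ a, y a * f a) ^ 2 := by
  simp only [Finset.mul_sum, ← Finset.sum_sub_distrib, ← Finset.sum_add_distrib]
  simp only [sq, Finset.sum_mul_sum]
  simp only [Finset.mul_sum, ← Finset.sum_sub_distrib, ← Finset.sum_add_distrib]
  refine Finset.sum_congr rfl fun a _ => Finset.sum_congr rfl fun b _ => ?_
  simp only [Bf, c_real]
  push_cast
  ring

theorem loc_eq (y : Fin 4 × Fin 3 → ℝ) {w : ℂ} (hw : w ∈ Sq) (h0 : w ≠ 0) :
    mx w * locI Vp (fun z => ∑ a, y a * fl phT a z) (fun z => ∑ a, y a * fl s1T a z)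
      (fun z => ∑ a, y a * fl s2T a z) w =
    (∑ a, ∑ b, y a * y b * Bw a b (mx w) (ev2 26 pvT (mx w) ((min w.re w.im / mx w) ^ 2))
      w.re w.im) / 21 := by
  have hm := (mx_pos hw h0).ne'
  simp only [Bw]
  rw [Bf_sum, locI, d1_sum _ y hw h0, d1_sum _ y hw h0, d2_sum _ y hw h0, d2_sum _ y hw h0, Vp]
  simp only [fl, mul_add (y _), Finset.sum_add_distrib]
  field_simp
  ring

theorem Vp_cont : ContinuousOn Vp (Sq \ {0}) := by
  have h1 : ∀ w ∈ Sq \ {0}, mx w ≠ 0 := fun w hw => (mx_pos hw.1 hw.2).ne'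
  refine ContinuousOn.div ?_ mx_cont.continuousOn h1
  refine (continuous_ev2 26 pvT continuous_fst continuous_snd).comp_continuousOn
    (mx_cont.continuousOn.prodMk (ContinuousOn.pow (ContinuousOn.div ?_ mx_cont.continuousOn h1) 2))
  exact (continuous_re.min continuous_im).continuousOn

theorem Vp_bd (w : ℂ) (hw : w ∈ Sq) (h0 : w ≠ 0) : |Vp w| ≤ 2.5 + 0.06 / mx w := by
  have hm := mx_pos hw h0
  have h1 := vE_pos hm.le (max_le hw.1.2 hw.2.2) (sq_nonneg (min w.re w.im / mx w))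
    (pow_le_one₀ (div_nonneg (le_min hw.1.1 hw.2.1) hm.le) (div_le_one_of_le₀ min_le_max hm.le))
  rw [Vp, abs_div, abs_of_pos hm, div_le_iff₀ hm, add_mul, div_mul_cancel₀ _ hm.ne']
  exact h1

theorem loc_int {φ σ₁ σ₂ : ℂ → ℝ} (hφ : ContDiff ℝ 1 φ) (hσ₁ : ContDiff ℝ 1 σ₁)
    (hσ₂ : ContDiff ℝ 1 σ₂) : IntegrableOn (locI Vp φ σ₁ σ₂) Sq := by
  have cVp : Cl 2 Vp := Cl.of_le (K := 6) Vp_cont fun w hw h0 => by
    have h1 := mul_le_mul_of_nonneg_right (Vp_bd w hw h0) (norm_nonneg w)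
    have h2 := mx_pos hw h0
    have h3 : 0.06 / mx w * ‖w‖ ≤ 0.12 := by
      rw [div_mul_eq_mul_div, div_le_iff₀ h2]
      linarith [norm_le_add hw, add_le_mx w]
    nlinarith [norm_le_two hw]
  have cφ : Cl 0 φ := Cl.of_cont hφ.continuous.continuousOn 0
  have cσ₁ : Cl 0 σ₁ := Cl.of_cont hσ₁.continuous.continuousOn 0
  have cσ₂ : Cl 0 σ₂ := Cl.of_cont hσ₂.continuous.continuousOn 0
  have φ1 : Cl 1 (d1 φ) := cl_d0 hφ 1 1
  have φ2 : Cl 1 (d2 φ) := cl_d0 hφ I 1
  have s1 : Cl 2 (d1 σ₁) := cl_d0 hσ₁ 1 2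
  have s2 : Cl 2 (d2 σ₂) := cl_d0 hσ₂ I 2
  exact ((((φ1.sq.add φ2.sq).sub (cVp.mul cφ.sq)).sub
    (((φ1.sub (cσ₁.mono (by norm_num))).sq.add (φ2.sub (cσ₂.mono (by norm_num))).sq).div 0.35)).sub
    (((s1.add s2).add (cVp.mul cφ)).sq_mx.div 0.12)).integrable

theorem Bw_cont (a b : Fin 4 × Fin 3) {m p x y : ℂ → ℝ} (hm : Continuous m) (hp : Continuous p)
    (hx : Continuous x) (hy : Continuous y) : Continuous fun w => Bw a b (m w) (p w) (x w) (y w) := by
  simp only [Bw, Bf]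
  fun_prop

theorem gram_eq (y : Fin 4 × Fin 3 → ℝ) :
    ∫ w in Sq, locI Vp (fun z => ∑ a, y a * fl phT a z) (fun z => ∑ a, y a * fl s1T a z)
      (fun z => ∑ a, y a * fl s2T a z) w =
    ∑ a, ∑ b, y a * y b * ((∫ s in (0 : ℝ)..1, ∫ q in (0 : ℝ)..1, gE a b ℝ 1 s q) / 21) := by
  have c1 := fun a b => Bw_cont a b continuous_re
    (continuous_ev2 26 pvT continuous_re (continuous_im.mul continuous_im)) continuous_re
    (continuous_re.mul continuous_im)
  have c2 := fun a b => Bw_cont a b continuous_re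
    (continuous_ev2 26 pvT continuous_re (continuous_im.mul continuous_im))
    (continuous_re.mul continuous_im) continuous_re
  have c3 : ∀ a b, IntegrableOn (fun w : ℂ => gE a b ℝ 1 w.re w.im) Sq := fun a b =>
    ((c1 a b).add (c2 a b)).continuousOn.integrableOn_compact Sq_cpt
  rw [duffy (loc_int (sum_sm _ y) (sum_sm _ y) (sum_sm _ y))
    ((continuous_finsetSum Finset.univ fun a _ => continuous_finsetSum Finset.univ fun b _ =>
      (c1 a b).const_mul (y a * y b)).div_const 21)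
    ((continuous_finsetSum Finset.univ fun a _ => continuous_finsetSum Finset.univ fun b _ =>
      (c2 a b).const_mul (y a * y b)).div_const 21)]
  · have h1 : ∀ a b, ∫ s in (0 : ℝ)..1, ∫ q in (0 : ℝ)..1, gE a b ℝ 1 s q =
        ∫ w in Sq, gE a b ℝ 1 w.re w.im := fun a b => by
      rw [(fub (c3 a b)).1, intervalIntegral.integral_of_le zero_le_one]
    simp only [h1, ← mul_div_assoc, ← Finset.sum_div, ← integral_const_mul]
    rw [Finset.sum_congr rfl fun a _ => (integral_finsetSum _ fun b _ =>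
      (c3 a b).const_mul (y a * y b)).symm, ← integral_finsetSum _ fun a _ =>
      integrable_finsetSum _ fun b _ => (c3 a b).const_mul (y a * y b), ← integral_div]
    simp only [gE, mul_add, Finset.sum_add_distrib, add_div, Pi.mul_apply]
  · intro s hs t ht
    have h1 : s * t ≤ s := mul_le_of_le_one_right hs.1.le ht.2
    have h2 : s * t ∈ Icc (0 : ℝ) 1 := ⟨mul_nonneg hs.1.le ht.1, h1.trans hs.2⟩
    have h3 : (s * t / s) ^ 2 = t * t := by rw [mul_div_cancel_left₀ _ hs.1.ne', sq]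
    have k1 := loc_eq y (mk_mem ⟨hs.1.le, hs.2⟩ h2) (ne_of_re hs.1)
    have k2 := loc_eq y (mk_mem h2 ⟨hs.1.le, hs.2⟩) (ne_of_im hs.1)
    simp only [mx, max_eq_left h1, max_eq_right h1, min_eq_left h1, min_eq_right h1, h3] at k1 k2
    exact ⟨k1, k2⟩

theorem scale_bd {n l D : ℝ} {P : Prop} [Decidable P] (hD : 0 < D)
    (h : |40000 * 2 ^ 16 * n - (40000 * l + if P then 12 * 2 ^ 16 else 0) * 21 * D| ≤
      2 ^ 16 * 21 * D) :
    |n / D / 21 - l / 2 ^ 16 - if P then 12 / 40000 else 0| ≤ 1 / 40000 := by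
  have h1 : (n / D / 21 - l / 2 ^ 16 - if P then 12 / 40000 else 0) =
      (40000 * 2 ^ 16 * n - (40000 * l + if P then 12 * 2 ^ 16 else 0) * 21 * D) /
        (40000 * 2 ^ 16 * 21 * D) := by
    split_ifs <;> field_simp <;> ring
  rw [h1, abs_div, abs_of_pos (a := 40000 * 2 ^ 16 * 21 * D) (by positivity),
    div_le_iff₀ (by positivity)]
  exact h.trans_eq (by ring)

theorem gram_bd (a b : Fin 4 × Fin 3) :
    |(∫ s in (0 : ℝ)..1, ∫ q in (0 : ℝ)..1, gE a b ℝ 1 s q) / 21 - lamM a b / 2 ^ 16 -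
      if a = b then 12 / 40000 else 0| ≤ 1 / 40000 := by
  obtain ⟨h1, h2⟩ := gE_chk a.1 a.2 b.1 b.2
  rw [Ex.integral (gE_hom a b) gp _ h1 (by norm_num) (by decide +kernel)]
  exact scale_bd (by positivity) (by exact_mod_cast h2)

theorem tr_eq (T : List (List (List ℤ))) (a : Fin 4 × Fin 3) (i : Fin 4) (t : ℝ) :
    fl T a (sp i t) = tr (tb T a) i t := by
  fin_cases i <;> simp [fl, sp, tr, ev1, c_real]

theorem cert : CertStmt := by
  refine ⟨fl phT, fl s1T, fl s2T, Lw, Vp_cont, Vp_bd, fun a => ⟨fl_sm _ a, fl_sm _ a, fl_sm _ a⟩,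
    fun m => continuous_ev1 _ _ continuous_id, fun t => by simp [Lw, ev1, c_real], fun a i m => ?_,
    fun a i => ?_, fun y => ?_⟩
  · obtain ⟨h1, h2⟩ := dE_chk a.1 a.2 i m
    have h3 := Ex.integral (dE_hom a i m) _ _ h1 (by norm_num) (by decide +kernel)
    simp only [Prod.mk.eta] at h2
    rw [h2] at h3
    simp only [dE, intervalIntegral.integral_const, sub_zero, one_smul] at h3
    simp only [tr_eq, h3]
    rw [div_eq_iff (by positivity)]
    push_cast
    norm_num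
  · have h1 := fun t => Ex.zero (zE_hom a i) _ (zE_chk a.1 a.2 i) 0 t 0
    have h2 : ![fl s2T, fl s1T, fl s1T, fl s2T] i = fl (nT i) := by fin_cases i <;> rfl
    simp only [zE] at h1
    generalize tr (tb (nT i) a) i (Cst.c 0 0 : ℝ) = A at h1
    generalize tr (tb (nT i) a) i (Cst.c 1 1 : ℝ) = B at h1
    generalize tr (tb (nT i) a) i (Cst.c 1 0 : ℝ) = C at h1
    refine ⟨![(A + 4 * B + C) / 6, (C - A) / 4, (A - 2 * B + C) / 6], fun t => ?_⟩
    rw [h2, tr_eq, sub_eq_zero.1 (h1 t)]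
    simp [Fin.sum_univ_three, Lw, ev1, c_real]
    ring
  · rw [gram_eq]
    have h1 : ∀ a b, (lamM a b : ℝ) * y a * y b ≤ 2 ^ 16 * (y a * y b *
        ((∫ s in (0 : ℝ)..1, ∫ q in (0 : ℝ)..1, gE a b ℝ 1 s q) / 21) +
        (y a ^ 2 + y b ^ 2) / 80000 - if a = b then 12 / 40000 * y a ^ 2 else 0) := fun a b => by
      have h2 := abs_le.1 (gram_bd a b)
      generalize (∫ s in (0 : ℝ)..1, ∫ q in (0 : ℝ)..1, gE a b ℝ 1 s q) / 21 = g at *
      split_ifs at h2 ⊢ with h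
      · subst h
        nlinarith [mul_nonneg (sub_nonneg.2 h2.1) (sq_nonneg (y a))]
      · nlinarith [mul_nonneg (sub_nonneg.2 h2.1) (sq_nonneg (y a + y b)),
          mul_nonneg (sub_nonneg.2 h2.2) (sq_nonneg (y a - y b))]
    refine (Finset.sum_le_sum fun a _ => Finset.sum_le_sum fun b _ => h1 a b).trans_eq ?_
    simp only [← Finset.mul_sum, Finset.sum_sub_distrib, Finset.sum_add_distrib, Finset.sum_ite_eq,
      Finset.mem_univ, if_true, ← Finset.sum_div, Finset.sum_const, Finset.card_univ,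
      Fintype.card_prod, Fintype.card_fin, nsmul_eq_mul]
    push_cast
    ring

end Pool.Agent.MP_6b3e96_gt.H31
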